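import Pool.Agent.R380.Fan.Final

/-!
MP_85483e_gt, Q2 (full positive answer): if `M` is the cone over a compact metric space with exactly
one limit point, then `C(M)` is a retract of `2^M`.
-/

namespace Pool.Agent.Results.MP_85483e_gt.ConeRetract

open Set Topology TopologicalSpace Filter

/-- the equivalence relation on `Z × [0, 1]` which identifies `Z × {1}` to a point -/
def coneSetoid (Z : Type) : Setoid (Z × unitInterval) where
  r p q := p = q ∨ (p.2 = 1 ∧ q.2 = 1)
  iseqv :=
    { refl := fun _ => Or.inl rfl
      symm := fun h => h.elim (fun h => Or.inl h.symm) (fun h => Or.inr ⟨h.2, h.1⟩)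
      trans := fun h h' => by
        rcases h with rfl | h
        · exact h'
        · rcases h' with rfl | h'
          · exact Or.inr h
          · exact Or.inr ⟨h.1, h'.2⟩ }

/-- `C(M)` is a retract of `2^M`: there is a continuous map `r` of the hyperspace of the nonempty
compact subsets of `M` (Vietoris topology) into itself, all of whose values are connected, with
`r A = A` for every connected `A`. -/
def HyperRetract (M : Type) [TopologicalSpace M] : Prop :=
  ∃ r : NonemptyCompacts M → NonemptyCompacts M, Continuous r ∧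
    (∀ A : NonemptyCompacts M, IsConnected (r A : Set M)) ∧
    ∀ A : NonemptyCompacts M, IsConnected (A : Set M) → r A = A

/-- Positive answer to Q2 of MP_85483e_gt. -/
theorem result (Z : Type) [MetricSpace Z] [CompactSpace Z] (hZ : ∃! z : Z, AccPt z (𝓟 univ))
    (M : Type) [TopologicalSpace M] (e : M ≃ₜ Quotient (coneSetoid Z)) : HyperRetract M := by
  obtain ⟨f, hf, hfi, hcount⟩ := Pool.Agent.R380.Fan.exists_emb Z hZ
  let g : Z × unitInterval → ℝ × ℝ := fun q => Pool.Agent.R380.Fan.pt (f q.1) q.2
  have hg : Continuous g := by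
    unfold g Pool.Agent.R380.Fan.pt
    fun_prop
  have hlift : ∀ a b : Z × unitInterval, (coneSetoid Z).r a b → g a = g b := by
    rintro a b (rfl | ⟨h1, h2⟩)
    · rfl
    · simp only [g]
      rw [h1, h2]
      have h3 : ((1 : unitInterval) : ℝ) = 1 := rfl
      rw [h3, Pool.Agent.R380.Fan.pt_one, Pool.Agent.R380.Fan.pt_one]
  let G : Quotient (coneSetoid Z) → ℝ × ℝ := Quotient.lift g hlift
  have hG : Continuous G := hg.quotient_lift hlift
  have hGi : Function.Injective G := by
    intro a b
    induction a using Quotient.inductionOn with | _ a => ?_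
    induction b using Quotient.inductionOn with | _ b => ?_
    intro h
    have h' : g a = g b := h
    simp only [g, Pool.Agent.R380.Fan.pt, Prod.mk.injEq] at h'
    obtain ⟨h1, h2⟩ := h'
    apply Quotient.sound
    have h3 : a.2 = b.2 := Subtype.ext h2
    by_cases h4 : a.2 = 1
    · exact Or.inr ⟨h4, h3 ▸ h4⟩
    · left
      have h5 : (a.2 : ℝ) ≠ 1 := fun h => h4 (Subtype.ext h)
      rw [← h2] at h1
      have h6 : (1 - (a.2 : ℝ)) ≠ 0 := fun h => h5 (by linarith)
      have h7 := mul_left_cancel₀ h6 h1
      exact Prod.ext (hfi h7) h3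
  have hcG : IsClosedEmbedding G := hG.isClosedEmbedding hGi
  have hcE : IsClosedEmbedding (fun m => G (e m)) := hcG.comp e.isClosedEmbedding
  have hrange : range (fun m => G (e m)) = Pool.Agent.R380.Fan.M0 (range f) := by
    ext x
    rw [Pool.Agent.R380.Fan.mem_M0]
    constructor
    · rintro ⟨m, rfl⟩
      obtain ⟨⟨z, s⟩, h⟩ := Quotient.exists_rep (e m)
      refine ⟨f z, ⟨z, rfl⟩, s, s.2.1, s.2.2, ?_⟩
      simp only
      rw [← h]
      rfl
    · rintro ⟨_, ⟨z, rfl⟩, s, h0, h1, rfl⟩
      refine ⟨e.symm (Quotient.mk _ (z, ⟨s, h0, h1⟩)), ?_⟩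
      simp only [Homeomorph.apply_symm_apply]
      rfl
  obtain ⟨K, hK⟩ := (isCompact_range hf).isBounded.exists_norm_le
  have hcr : (range f).Countable := countable_range f
  exact Pool.Agent.R380.Fan.retr_of_embedding (K := max K 0) (le_max_right _ _)
    (fun z hz => (hK z hz).trans (le_max_left _ _))
    (Pool.Agent.R380.Fan.gap_of_countable hcr) _ hcE hrange

end Pool.Agent.Results.MP_85483e_gt.ConeRetract
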