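import Pool.Agent.R380.Fan.Final

/-!
MP_85483e_gt, Q1 (full positive answer): there is a continuum `M` which is not locally connected
such that `C(M)` is a retract of `2^M`.
-/

namespace Pool.Agent.Results.MP_85483e_gt.NotLocConn

open Set Topology TopologicalSpace

/-- Positive answer to Q1 of MP_85483e_gt: `M` is a compact connected metric space which is not
locally connected, and `r` is a retraction of the hyperspace `2^M` of its nonempty closed subsets
onto the hyperspace `C(M)` of its subcontinua. -/
theorem result : ∃ (M : Type) (_ : MetricSpace M), CompactSpace M ∧ ConnectedSpace M ∧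
    ¬ LocallyConnectedSpace M ∧
    ∃ r : NonemptyCompacts M → NonemptyCompacts M, Continuous r ∧
      (∀ A : NonemptyCompacts M, IsConnected (r A : Set M)) ∧
      ∀ A : NonemptyCompacts M, IsConnected (A : Set M) → r A = A := by
  have hc := Pool.Agent.R380.Fan.isCompact_M0 Pool.Agent.R380.Fan.Zh_compact
  refine ⟨Pool.Agent.R380.Fan.M0 Pool.Agent.R380.Fan.Zh, inferInstance,
    isCompact_iff_compactSpace.1 hc,
    isConnected_iff_connectedSpace.1 (Pool.Agent.R380.Fan.isConnected_M0 ⟨0, Or.inr rfl⟩),
    Pool.Agent.R380.Fan.fan_not_locconn, ?_⟩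
  exact Pool.Agent.R380.Fan.retr_of_embedding zero_le_one Pool.Agent.R380.Fan.Zh_bound
    (Pool.Agent.R380.Fan.gap_of_countable Pool.Agent.R380.Fan.Zh_countable) Subtype.val
    hc.isClosed.isClosedEmbedding_subtypeVal Subtype.range_coe

end Pool.Agent.Results.MP_85483e_gt.NotLocConn
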